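import Mathlib

set_option autoImplicit false

/-!
# Regular polygons do not minimise the anisotropic Cheeger functional of the disk

`J K = h_K(B) |K°|^{1/2}` for the open unit disk `B`.  For every even `n ≥ 24` some centrally
symmetric convex `n`-gon `P` has `J P < J (P*_n)`, where `P*_n` is the regular `n`-gon circumscribed
about `B`.  So the inequality of Q1 is false.

Proof.  The disk is contained in `P*_n`, so the field `x` calibrates: `h_{P*_n}(B) ≥ 2`; and the
polar of `P*_n` contains the disk of radius `cos (π / n)`.  Hence `J (P*_n) ≥ 2 √π cos (π / n)`.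
The polygon `P` has its `n` vertices on two large circles, among them the points `(±c, ±c)`,
`c = 0.999`, and lies in the square `[-1, 1]²`.  The set of the points of `B` with both coordinates
less than `cos (π / 8)` in absolute value has `ℓ₁`-perimeter `8 cos (π / 8)` and area `π / 2 + √2`,
and the area of the polar of `P` is at most `2 / c²`.
-/

open MeasureTheory Set Filter Topology

namespace Pool.Agent.Results.MP_4eea03_an.RegularNotOptimal

noncomputable section

/-- The scalar product of the plane `ℝ × ℝ`. -/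
def dot (x y : ℝ × ℝ) : ℝ := x.1 * y.1 + x.2 * y.2

/-- The class `𝒦₂` of the non-empty, open, bounded, convex sets that are centrally symmetric with
respect to the origin. -/
def IsBody (K : Set (ℝ × ℝ)) : Prop :=
  K.Nonempty ∧ IsOpen K ∧ Bornology.IsBounded K ∧ Convex ℝ K ∧ ∀ x ∈ K, -x ∈ K

/-- The polar norm `Φ_K^∘(x) = sup {x · y : y ∈ K}`. -/
def polarNorm (K : Set (ℝ × ℝ)) (x : ℝ × ℝ) : ℝ := sSup ((fun y => dot x y) '' K)

/-- The polar set `K^∘ = {x : Φ_K^∘(x) < 1}`. -/
def polar (K : Set (ℝ × ℝ)) : Set (ℝ × ℝ) := {x | polarNorm K x < 1}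

/-- The divergence of a vector field. -/
def dvg (φ : ℝ × ℝ → ℝ × ℝ) (x : ℝ × ℝ) : ℝ :=
  (fderiv ℝ φ x (1, 0)).1 + (fderiv ℝ φ x (0, 1)).2

/-- The `C¹` vector fields of compact support with values in the closure of `K`. -/
def IsField (K : Set (ℝ × ℝ)) (φ : ℝ × ℝ → ℝ × ℝ) : Prop :=
  ContDiff ℝ 1 φ ∧ HasCompactSupport φ ∧ ∀ x, φ x ∈ closure K

/-- The anisotropic perimeter `P_K(E)`, in De Giorgi's form: the supremum of the integrals over `E`
of the divergences of the `C¹` fields of compact support with values in the closure of `K` (that is,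
with `Φ_K ≤ 1`, where `Φ_K` is the gauge of `K`, the dual of the norm `Φ_K^∘`).  It is infinite if
`E` does not have finite perimeter. -/
def per (K E : Set (ℝ × ℝ)) : ENNReal :=
  ⨆ (φ : ℝ × ℝ → ℝ × ℝ) (_ : IsField K φ), ENNReal.ofReal (∫ x in E, dvg φ x)

/-- The anisotropic Cheeger constant `h_K(Ω)`: the infimum of `P_K(E) / |E|` over the Borel sets
`E ⊆ Ω` of positive area. -/
def cheeger (K Ω : Set (ℝ × ℝ)) : ENNReal :=
  ⨅ (E : Set (ℝ × ℝ)) (_ : MeasurableSet E ∧ E ⊆ Ω ∧ 0 < volume E), per K E / volume E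

/-- The open unit disk `B`. -/
def disk : Set (ℝ × ℝ) := {x | x.1 ^ 2 + x.2 ^ 2 < 1}

/-- The functional `𝒥_B[K] = h_K(B) |K^∘|^{1/2}`. -/
def J (K : Set (ℝ × ℝ)) : ENNReal := cheeger K disk * volume (polar K) ^ (1 / 2 : ℝ)

/-- The class `𝒫_n`: `K ∈ 𝒦₂` is a polygon with exactly `n` vertices (sides), i.e. the closure of
`K` is the convex hull of a set of `n` points, all of which are extreme points of it. -/
def IsPolygon (n : ℕ) (K : Set (ℝ × ℝ)) : Prop :=
  IsBody K ∧ ∃ V : Finset (ℝ × ℝ), V.card = n ∧ closure K = convexHull ℝ (V : Set (ℝ × ℝ)) ∧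
    (closure K).extremePoints ℝ = (V : Set (ℝ × ℝ))

/-- The regular `n`-gon `P*_n` circumscribed about the unit disk: its sides touch the unit circle at
the points `(cos (2 π j / n), sin (2 π j / n))`, `0 ≤ j < n`. -/
def regularPolygon (n : ℕ) : Set (ℝ × ℝ) :=
  {x | ∀ j : ℕ, j < n →
    dot x (Real.cos (2 * Real.pi * j / n), Real.sin (2 * Real.pi * j / n)) < 1}

/-! ### The lower bound -/

lemma dot_sq_le (x y : ℝ × ℝ) : dot x y ^ 2 ≤ (x.1 ^ 2 + x.2 ^ 2) * (y.1 ^ 2 + y.2 ^ 2) := by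
  unfold dot
  nlinarith [sq_nonneg (x.1 * y.2 - x.2 * y.1)]

lemma disk_subset_regular (n : ℕ) : disk ⊆ regularPolygon n := by
  intro x hx j _
  have h1 := dot_sq_le x (Real.cos (2 * Real.pi * j / n), Real.sin (2 * Real.pi * j / n))
  simp only at h1
  rw [Real.cos_sq_add_sin_sq, mul_one] at h1
  have h2 : x.1 ^ 2 + x.2 ^ 2 < 1 := hx
  have h3 : dot x (Real.cos (2 * Real.pi * j / n), Real.sin (2 * Real.pi * j / n)) ^ 2 < 1 :=
    h1.trans_lt h2
  exact (abs_lt.1 ((sq_lt_one_iff_abs_lt_one _).1 h3)).2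

lemma isBounded_disk_vol {E : Set (ℝ × ℝ)} (h : E ⊆ disk) : volume E ≠ ⊤ := by
  have h1 : E ⊆ Metric.closedBall (0 : ℝ × ℝ) 1 := by
    intro x hx
    have h2 : x.1 ^ 2 + x.2 ^ 2 < 1 := h hx
    rw [Metric.mem_closedBall, dist_zero_right, Prod.norm_def]
    refine max_le ?_ ?_
    · rw [Real.norm_eq_abs, ← sq_le_one_iff_abs_le_one]
      nlinarith [sq_nonneg x.2]
    · rw [Real.norm_eq_abs, ← sq_le_one_iff_abs_le_one]
      nlinarith [sq_nonneg x.1]
  exact ((measure_mono h1).trans_lt (isCompact_closedBall _ _).measure_lt_top).ne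

/-- the calibrating field -/
def cal (t : ℝ) (ψ : ℝ → ℝ) (x : ℝ × ℝ) : ℝ × ℝ := (t * ψ (x.1 ^ 2 + x.2 ^ 2)) • x

lemma le_per_of_disk {K E : Set (ℝ × ℝ)} (hK : disk ⊆ K) (hE : E ⊆ disk) (hEm : MeasurableSet E) :
    2 * volume E ≤ per K E := by
  have hfin := isBounded_disk_vol hE
  have key : ∀ t : ℝ, 0 < t → t < 1 →
      ENNReal.ofReal (2 * t * (volume E).toReal) ≤ per K E := by
    intro t ht0 ht1
    have h1t : 1 < 1 / t := by rw [lt_div_iff₀ ht0]; linarith
    let f : ContDiffBump (0 : ℝ) := ⟨1, 1 / t, one_pos, h1t⟩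
    have hsm : ContDiff ℝ 1 (fun x : ℝ × ℝ => x.1 ^ 2 + x.2 ^ 2) := by fun_prop
    have hfs : ContDiff ℝ 1 (fun x : ℝ × ℝ => f (x.1 ^ 2 + x.2 ^ 2)) := f.contDiff.comp hsm
    have hφ : ContDiff ℝ 1 (cal t f) := by
      unfold cal
      exact (contDiff_const.mul hfs).smul contDiff_id
    have hsupp : ∀ x : ℝ × ℝ, 1 / t ≤ x.1 ^ 2 + x.2 ^ 2 → f (x.1 ^ 2 + x.2 ^ 2) = 0 := by
      intro x hx
      apply f.zero_of_le_dist
      rw [Real.dist_eq, sub_zero, abs_of_nonneg (by positivity)]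
      exact hx
    have hcs : HasCompactSupport (cal t f) := by
      apply HasCompactSupport.intro (isCompact_closedBall (0 : ℝ × ℝ) (√(1 / t)))
      intro x hx
      have h2 : 1 / t ≤ x.1 ^ 2 + x.2 ^ 2 := by
        by_contra hcon
        push Not at hcon
        apply hx
        rw [Metric.mem_closedBall, dist_zero_right, Prod.norm_def]
        refine max_le ?_ ?_
        · rw [Real.norm_eq_abs]
          apply Real.abs_le_sqrt
          nlinarith [sq_nonneg x.2]
        · rw [Real.norm_eq_abs]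
          apply Real.abs_le_sqrt
          nlinarith [sq_nonneg x.1]
      unfold cal
      rw [hsupp x h2, mul_zero, zero_smul]
    have hval : ∀ x, cal t f x ∈ disk := by
      intro x
      by_cases h2 : 1 / t ≤ x.1 ^ 2 + x.2 ^ 2
      · unfold cal
        rw [hsupp x h2, mul_zero, zero_smul]
        simp [disk]
      · push Not at h2
        have hf0 : 0 ≤ f (x.1 ^ 2 + x.2 ^ 2) := f.nonneg
        have hf1 : f (x.1 ^ 2 + x.2 ^ 2) ≤ 1 := f.le_one
        set u := f (x.1 ^ 2 + x.2 ^ 2) with hu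
        have h3 : (t * u) ^ 2 ≤ t ^ 2 := by
          apply pow_le_pow_left₀ (by positivity)
          nlinarith
        have h4 : t ^ 2 * (x.1 ^ 2 + x.2 ^ 2) < t := by
          have : t * (x.1 ^ 2 + x.2 ^ 2) < 1 := by
            rw [lt_div_iff₀ ht0] at h2
            linarith
          nlinarith
        have h5 : (t * u) ^ 2 * (x.1 ^ 2 + x.2 ^ 2) ≤ t ^ 2 * (x.1 ^ 2 + x.2 ^ 2) :=
          mul_le_mul_of_nonneg_right h3 (by positivity)
        change (t * u * x.1) ^ 2 + (t * u * x.2) ^ 2 < 1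
        nlinarith
    have hfield : IsField K (cal t f) := ⟨hφ, hcs, fun x => subset_closure (hK (hval x))⟩
    have hdiv : ∀ x ∈ E, dvg (cal t f) x = 2 * t := by
      intro x hx
      have hxd : x.1 ^ 2 + x.2 ^ 2 < 1 := hE hx
      have hopen : IsOpen disk := by
        apply isOpen_lt (by fun_prop) continuous_const
      have heq : cal t f =ᶠ[𝓝 x] fun z => t • z := by
        filter_upwards [hopen.mem_nhds (show x ∈ disk from hxd)] with z hz
        have h6 : f (z.1 ^ 2 + z.2 ^ 2) = 1 := by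
          apply f.one_of_mem_closedBall
          rw [Metric.mem_closedBall, Real.dist_eq, sub_zero, abs_of_nonneg (by positivity)]
          exact (show z.1 ^ 2 + z.2 ^ 2 < 1 from hz).le
        unfold cal
        rw [h6, mul_one]
      have hfd : fderiv ℝ (cal t f) x = t • ContinuousLinearMap.id ℝ (ℝ × ℝ) := by
        rw [heq.fderiv_eq]
        exact ((hasFDerivAt_id x).const_smul t).fderiv
      unfold dvg
      rw [hfd]
      simp
      ring
    have hint : ∫ x in E, dvg (cal t f) x = 2 * t * (volume E).toReal := by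
      rw [setIntegral_congr_fun hEm hdiv, setIntegral_const, smul_eq_mul, mul_comm]
      rfl
    have := le_iSup₂ (f := fun (φ : ℝ × ℝ → ℝ × ℝ) (_ : IsField K φ) =>
      ENNReal.ofReal (∫ x in E, dvg φ x)) (cal t f) hfield
    rw [hint] at this
    exact this
  have hlim : Tendsto (fun t : ℝ => ENNReal.ofReal (2 * t * (volume E).toReal)) (𝓝[<] 1)
      (𝓝 (ENNReal.ofReal (2 * 1 * (volume E).toReal))) := by
    apply (ENNReal.continuous_ofReal.tendsto _).comp
    have : Continuous fun t : ℝ => 2 * t * (volume E).toReal := by fun_prop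
    exact (this.tendsto 1).mono_left nhdsWithin_le_nhds
  have hfinal : ENNReal.ofReal (2 * 1 * (volume E).toReal) ≤ per K E := by
    apply le_of_tendsto hlim
    have : ∀ᶠ t : ℝ in 𝓝[<] 1, 0 < t ∧ t < 1 := by
      have h1 : ∀ᶠ t : ℝ in 𝓝[<] 1, 0 < t :=
        nhdsWithin_le_nhds (lt_mem_nhds (by norm_num))
      have h2 : ∀ᶠ t : ℝ in 𝓝[<] 1, t < 1 := self_mem_nhdsWithin
      exact h1.and h2
    filter_upwards [this] with t ht
    exact key t ht.1 ht.2
  rw [mul_one, ENNReal.ofReal_mul (by norm_num), ENNReal.ofReal_toReal hfin] at hfinal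
  simpa using hfinal

lemma two_le_cheeger {K : Set (ℝ × ℝ)} (hK : disk ⊆ K) : 2 ≤ cheeger K disk := by
  unfold cheeger
  refine le_iInf₂ fun E hE => ?_
  rw [ENNReal.le_div_iff_mul_le (Or.inl hE.2.2.ne') (Or.inl (isBounded_disk_vol hE.2.1))]
  exact le_per_of_disk hK hE.2.1 hE.1

/-- the open Euclidean disk of radius `r` -/
def edisk (r : ℝ) : Set (ℝ × ℝ) := {x | x.1 ^ 2 + x.2 ^ 2 < r ^ 2}

lemma volume_edisk {r : ℝ} (hr : 0 ≤ r) :
    volume (edisk r) = ENNReal.ofReal (Real.pi * r ^ 2) := by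
  have h1 := Complex.volume_preserving_equiv_real_prod
  have hm : MeasurableSet (edisk r) := by
    apply (isOpen_lt (by fun_prop) continuous_const).measurableSet
  have h2 := h1.measure_preimage hm.nullMeasurableSet
  rw [← h2]
  have h3 : (⇑Complex.measurableEquivRealProd ⁻¹' edisk r) = Metric.ball (0 : ℂ) r := by
    ext z
    rw [mem_preimage, Metric.mem_ball, dist_zero_right]
    change z.re ^ 2 + z.im ^ 2 < r ^ 2 ↔ _
    have h4 : z.re ^ 2 + z.im ^ 2 = ‖z‖ ^ 2 := by
      rw [← Complex.normSq_eq_norm_sq, Complex.normSq_apply]; ring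
    rw [h4, sq_lt_sq₀ (norm_nonneg _) hr]
  rw [h3, Complex.volume_ball, mul_comm, ENNReal.ofReal_mul Real.pi_pos.le,
    ENNReal.ofReal_pow hr]
  congr 1
  rw [← NNReal.coe_real_pi, ENNReal.ofReal_coe_nnreal]

lemma exists_polar_form (y : ℝ × ℝ) :
    ∃ r θ : ℝ, 0 ≤ r ∧ y.1 = r * Real.cos θ ∧ y.2 = r * Real.sin θ ∧ r ^ 2 = y.1 ^ 2 + y.2 ^ 2 := by
  refine ⟨‖(⟨y.1, y.2⟩ : ℂ)‖, Complex.arg ⟨y.1, y.2⟩, norm_nonneg _, ?_, ?_, ?_⟩
  · exact (Complex.norm_mul_cos_arg ⟨y.1, y.2⟩).symm
  · exact (Complex.norm_mul_sin_arg ⟨y.1, y.2⟩).symm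
  · rw [← Complex.normSq_eq_norm_sq, Complex.normSq_apply]; ring

lemma regular_norm_le {n : ℕ} (hn : 3 ≤ n) {y : ℝ × ℝ} (hy : y ∈ regularPolygon n) :
    (y.1 ^ 2 + y.2 ^ 2) * Real.cos (Real.pi / n) ^ 2 ≤ 1 := by
  obtain ⟨r, θ, hr, h1, h2, h3⟩ := exists_polar_form y
  have hn0 : (0 : ℝ) < n := by
    have : 0 < n := by omega
    exact_mod_cast this
  -- the nearest multiple of `2 π / n`
  set m : ℤ := round (θ * n / (2 * Real.pi)) with hm
  have hround : |θ * n / (2 * Real.pi) - m| ≤ 1 / 2 := abs_sub_round _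
  have hnZ : (0 : ℤ) < n := by
    have : 0 < n := by omega
    exact_mod_cast this
  obtain ⟨j, hj⟩ := Int.eq_ofNat_of_zero_le (Int.emod_nonneg m hnZ.ne')
  have hjn : j < n := by
    have := Int.emod_lt_of_pos m hnZ
    omega
  have hmj : m = j + n * (m / n) := by
    have := Int.emod_add_mul_ediv m n
    omega
  have hang : ∀ z : ℝ, |z| ≤ Real.pi / n → Real.cos (Real.pi / n) ≤ Real.cos z := by
    intro z hz
    rw [← Real.cos_abs z]
    apply Real.cos_le_cos_of_nonneg_of_le_pi (abs_nonneg z) _ hz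
    rw [div_le_iff₀ hn0]
    have : (1 : ℝ) ≤ n := by
      have : 1 ≤ n := by omega
      exact_mod_cast this
    nlinarith [Real.pi_pos]
  have hdiff : |θ - 2 * Real.pi * m / n| ≤ Real.pi / n := by
    have e : θ - 2 * Real.pi * m / n = (2 * Real.pi / n) * (θ * n / (2 * Real.pi) - m) := by
      field_simp [Real.pi_pos.ne']
    rw [e, abs_mul, abs_of_pos (by positivity : 0 < 2 * Real.pi / n)]
    calc 2 * Real.pi / n * |θ * n / (2 * Real.pi) - m| ≤ 2 * Real.pi / n * (1 / 2) :=
          mul_le_mul_of_nonneg_left hround (by positivity)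
      _ = Real.pi / n := by ring
  have hcos := hang _ hdiff
  have hper : Real.cos (θ - 2 * Real.pi * m / n) = Real.cos (θ - 2 * Real.pi * j / n) := by
    have e : θ - 2 * Real.pi * j / n = θ - 2 * Real.pi * m / n + (m / n : ℤ) * (2 * Real.pi) := by
      have : (m : ℝ) = j + n * ((m / n : ℤ) : ℝ) := by exact_mod_cast hmj
      rw [this]
      field_simp
      ring
    rw [e, Real.cos_add_int_mul_two_pi]
  rw [hper] at hcos
  have h4 := hy j hjn
  unfold dot at h4
  simp only at h4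
  rw [h1, h2] at h4
  have h5 : r * Real.cos (θ - 2 * Real.pi * j / n) < 1 := by
    rw [Real.cos_sub]
    linarith
  have hc0 : 0 ≤ Real.cos (Real.pi / n) := by
    apply Real.cos_nonneg_of_neg_pi_div_two_le_of_le
    · have : 0 ≤ Real.pi / n := by positivity
      linarith [Real.pi_pos]
    · rw [div_le_iff₀ hn0]
      have : (2 : ℝ) ≤ n := by
        have : 2 ≤ n := by omega
        exact_mod_cast this
      nlinarith [Real.pi_pos]
  have h6 : r * Real.cos (Real.pi / n) ≤ 1 := by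
    have := mul_le_mul_of_nonneg_left hcos hr
    linarith
  have h7 : 0 ≤ r * Real.cos (Real.pi / n) := mul_nonneg hr hc0
  rw [← h3, ← mul_pow]
  nlinarith

lemma edisk_subset_polar {n : ℕ} (hn : 3 ≤ n) :
    edisk (Real.cos (Real.pi / n)) ⊆ polar (regularPolygon n) := by
  intro x hx
  have hx' : x.1 ^ 2 + x.2 ^ 2 < Real.cos (Real.pi / n) ^ 2 := hx
  have hc2 : 0 < Real.cos (Real.pi / n) ^ 2 := lt_of_le_of_lt (by positivity) hx'
  set q := (x.1 ^ 2 + x.2 ^ 2) / Real.cos (Real.pi / n) ^ 2 with hq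
  have hq0 : 0 ≤ q := by positivity
  have hq1 : q < 1 := by rw [hq, div_lt_one hc2]; exact hx'
  have h0 : (0 : ℝ × ℝ) ∈ regularPolygon n := disk_subset_regular n (by simp [disk])
  have hle : polarNorm (regularPolygon n) x ≤ √q := by
    apply csSup_le (Set.Nonempty.image _ ⟨0, h0⟩)
    rintro _ ⟨y, hy, rfl⟩
    apply Real.le_sqrt_of_sq_le
    have h1 := dot_sq_le x y
    have h2 := regular_norm_le hn hy
    rw [hq, le_div_iff₀ hc2]
    calc dot x y ^ 2 * Real.cos (Real.pi / n) ^ 2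
        ≤ (x.1 ^ 2 + x.2 ^ 2) * (y.1 ^ 2 + y.2 ^ 2) * Real.cos (Real.pi / n) ^ 2 :=
          mul_le_mul_of_nonneg_right h1 hc2.le
      _ = (x.1 ^ 2 + x.2 ^ 2) * ((y.1 ^ 2 + y.2 ^ 2) * Real.cos (Real.pi / n) ^ 2) := by ring
      _ ≤ (x.1 ^ 2 + x.2 ^ 2) * 1 := mul_le_mul_of_nonneg_left h2 (by positivity)
      _ = _ := mul_one _
  exact lt_of_le_of_lt hle ((Real.sqrt_lt' one_pos).2 (by simpa using hq1))

/-- `J (P*_n) ≥ 2 √π cos (π / n)` -/
lemma lower {n : ℕ} (hn : 3 ≤ n) :
    ENNReal.ofReal (2 * √(Real.pi * Real.cos (Real.pi / n) ^ 2)) ≤ J (regularPolygon n) := by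
  have hn0 : (0 : ℝ) < n := by
    have : 0 < n := by omega
    exact_mod_cast this
  have hc0 : 0 ≤ Real.cos (Real.pi / n) := by
    apply Real.cos_nonneg_of_neg_pi_div_two_le_of_le
    · have : 0 ≤ Real.pi / n := by positivity
      linarith [Real.pi_pos]
    · rw [div_le_iff₀ hn0]
      have : (2 : ℝ) ≤ n := by
        have : 2 ≤ n := by omega
        exact_mod_cast this
      nlinarith [Real.pi_pos]
  have h1 := two_le_cheeger (disk_subset_regular n)
  have h2 : ENNReal.ofReal (Real.pi * Real.cos (Real.pi / n) ^ 2) ≤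
      volume (polar (regularPolygon n)) := by
    rw [← volume_edisk hc0]
    exact measure_mono (edisk_subset_polar hn)
  have h3 := ENNReal.rpow_le_rpow h2 (show (0 : ℝ) ≤ 1 / 2 by norm_num)
  rw [ENNReal.ofReal_rpow_of_nonneg (by positivity) (by norm_num), ← Real.sqrt_eq_rpow] at h3
  rw [ENNReal.ofReal_mul (by norm_num)]
  unfold J
  refine mul_le_mul' ?_ h3
  simpa using h1

/-! ### The test set -/

/-- the half-width of the test set -/
def wid (a s : ℝ) : ℝ := min a (√(1 - s ^ 2))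

/-- the test set: the points of the disk with coordinates less than `a` in absolute value -/
def test (a : ℝ) : Set (ℝ × ℝ) := {x | |x.1| < a ∧ |x.2| < a ∧ x.1 ^ 2 + x.2 ^ 2 < 1}

lemma test_measurable (a : ℝ) : MeasurableSet (test a) := by
  apply IsOpen.measurableSet
  have h1 : IsOpen {x : ℝ × ℝ | |x.1| < a} := isOpen_lt (by fun_prop) continuous_const
  have h2 : IsOpen {x : ℝ × ℝ | |x.2| < a} := isOpen_lt (by fun_prop) continuous_const
  have h3 : IsOpen {x : ℝ × ℝ | x.1 ^ 2 + x.2 ^ 2 < 1} := isOpen_lt (by fun_prop) continuous_const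
  exact h1.inter (h2.inter h3)

lemma test_subset (a : ℝ) : test a ⊆ disk := fun _ hx => hx.2.2

lemma mem_test_iff {a : ℝ} (x y : ℝ) :
    (x, y) ∈ test a ↔ |y| < a ∧ x ∈ Ioo (-(wid a y)) (wid a y) := by
  unfold test wid
  rw [mem_Ioo, ← abs_lt, lt_min_iff]
  simp only [mem_ofPred_eq]
  constructor
  · rintro ⟨h1, h2, h3⟩
    refine ⟨h2, h1, Real.lt_sqrt_of_sq_lt ?_⟩
    rw [sq_abs]; linarith
  · rintro ⟨h1, h2, h3⟩
    refine ⟨h2, h1, ?_⟩
    have h4 := (Real.lt_sqrt (abs_nonneg x)).1 h3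
    rw [sq_abs] at h4
    linarith

lemma mem_test_swap {a : ℝ} (x y : ℝ) : (x, y) ∈ test a ↔ (y, x) ∈ test a := by
  unfold test
  simp only [mem_ofPred_eq]
  constructor
  · rintro ⟨h1, h2, h3⟩
    exact ⟨h2, h1, by linarith⟩
  · rintro ⟨h1, h2, h3⟩
    exact ⟨h2, h1, by linarith⟩

lemma wid_nonneg {a : ℝ} (ha : 0 ≤ a) (s : ℝ) : 0 ≤ wid a s := le_min ha (Real.sqrt_nonneg _)

/-- one-dimensional estimate on a slice -/
lemma slice_le {f f' : ℝ → ℝ} (hf : ∀ x, HasDerivAt f (f' x) x) (hc : Continuous f')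
    (hb : ∀ x, |f x| ≤ 1) {w : ℝ} (hw : 0 ≤ w) : ∫ x in Ioo (-w) w, f' x ≤ 2 := by
  rw [← integral_Ioc_eq_integral_Ioo, ← intervalIntegral.integral_of_le (by linarith),
    intervalIntegral.integral_eq_sub_of_hasDerivAt (fun x _ => hf x) (hc.intervalIntegrable _ _)]
  have h1 := abs_le.1 (hb w)
  have h2 := abs_le.1 (hb (-w))
  linarith [h1.2, h2.1]

lemma integral_first_le {a : ℝ} (ha : 0 ≤ a) {f f' : ℝ × ℝ → ℝ} (hc : Continuous f')
    (hcs : HasCompactSupport f') (hd : ∀ x y, HasDerivAt (fun s => f (s, y)) (f' (x, y)) x)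
    (hb : ∀ z, |f z| ≤ 1) : ∫ z in test a, f' z ≤ 4 * a := by
  have hint : Integrable f' := hc.integrable_of_hasCompactSupport hcs
  have hintE : Integrable ((test a).indicator f') := hint.indicator (test_measurable a)
  rw [← integral_indicator (test_measurable a), Measure.volume_eq_prod]
  rw [integral_prod_symm _ (by rw [← Measure.volume_eq_prod]; exact hintE)]
  have hslice : ∀ y : ℝ, ∫ x, (test a).indicator f' (x, y) ≤
      (Ioo (-a) a).indicator (fun _ => (2 : ℝ)) y := by
    intro y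
    by_cases hy : |y| < a
    · rw [indicator_of_mem (show y ∈ Ioo (-a) a from abs_lt.1 hy)]
      have e : (fun x => (test a).indicator f' (x, y)) =
          (Ioo (-(wid a y)) (wid a y)).indicator (fun x => f' (x, y)) := by
        funext x
        by_cases hx : (x, y) ∈ test a
        · rw [indicator_of_mem hx, indicator_of_mem ((mem_test_iff x y).1 hx).2]
        · rw [indicator_of_notMem hx, indicator_of_notMem]
          intro h
          exact hx ((mem_test_iff x y).2 ⟨hy, h⟩)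
      rw [e, integral_indicator measurableSet_Ioo]
      exact slice_le (f := fun s => f (s, y)) (fun x => hd x y) (by fun_prop) (fun x => hb _)
        (wid_nonneg ha y)
    · rw [indicator_of_notMem (fun h : y ∈ Ioo (-a) a => hy (abs_lt.2 h))]
      have e : (fun x => (test a).indicator f' (x, y)) = fun _ => 0 := by
        funext x
        rw [indicator_of_notMem]
        intro h
        exact hy ((mem_test_iff x y).1 h).1
      rw [e]
      simp
  have hI1 : Integrable fun y : ℝ => ∫ x, (test a).indicator f' (x, y) := by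
    have : Integrable ((test a).indicator f') ((volume : Measure ℝ).prod volume) := by
      rw [← Measure.volume_eq_prod]; exact hintE
    exact this.integral_prod_right
  have hI2 : Integrable ((Ioo (-a) a).indicator (fun _ => (2 : ℝ))) := by
    rw [integrable_indicator_iff measurableSet_Ioo]
    simp
  refine (integral_mono hI1 hI2 hslice).trans ?_
  rw [integral_indicator measurableSet_Ioo, setIntegral_const, smul_eq_mul, Real.volume_real_Ioo_of_le
    (by linarith)]
  linarith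

lemma per_test_le {a : ℝ} (ha : 0 ≤ a) {K : Set (ℝ × ℝ)}
    (hK : ∀ x ∈ closure K, |x.1| ≤ 1 ∧ |x.2| ≤ 1) : per K (test a) ≤ ENNReal.ofReal (8 * a) := by
  unfold per
  refine iSup₂_le fun φ hφ => ENNReal.ofReal_le_ofReal ?_
  obtain ⟨h1, h2, h3⟩ := hφ
  have hdiff : Differentiable ℝ φ := h1.differentiable (by norm_num)
  have hcf : Continuous (fderiv ℝ φ) := h1.continuous_fderiv (by norm_num)
  have hc1 : Continuous fun x => (fderiv ℝ φ x (1, 0)).1 := by
    exact continuous_fst.comp (hcf.clm_apply continuous_const)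
  have hc2 : Continuous fun x => (fderiv ℝ φ x (0, 1)).2 := by
    exact continuous_snd.comp (hcf.clm_apply continuous_const)
  have hs1 : HasCompactSupport fun x => (fderiv ℝ φ x (1, 0)).1 := by
    have := (h2.fderiv (𝕜 := ℝ)).comp_left (g := fun L : (ℝ × ℝ) →L[ℝ] (ℝ × ℝ) => (L (1, 0)).1)
      (by simp)
    exact this
  have hs2 : HasCompactSupport fun x => (fderiv ℝ φ x (0, 1)).2 := by
    have := (h2.fderiv (𝕜 := ℝ)).comp_left (g := fun L : (ℝ × ℝ) →L[ℝ] (ℝ × ℝ) => (L (0, 1)).2)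
      (by simp)
    exact this
  have hd1 : ∀ x y, HasDerivAt (fun s => (φ (s, y)).1) (fderiv ℝ φ (x, y) (1, 0)).1 x := by
    intro x y
    have h4 : HasDerivAt (fun s : ℝ => ((s, y) : ℝ × ℝ)) (1, 0) x :=
      (hasDerivAt_id x).prodMk (hasDerivAt_const x y)
    have h5 := (hdiff (x, y)).hasFDerivAt.comp_hasDerivAt x h4
    exact (hasFDerivAt_fst (𝕜 := ℝ) (E := ℝ) (F := ℝ)).comp_hasDerivAt x h5
  have hd2 : ∀ x y, HasDerivAt (fun s => (φ (x, s)).2) (fderiv ℝ φ (x, y) (0, 1)).2 y := by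
    intro x y
    have h4 : HasDerivAt (fun s : ℝ => ((x, s) : ℝ × ℝ)) (0, 1) y :=
      (hasDerivAt_const y x).prodMk (hasDerivAt_id y)
    have h5 := (hdiff (x, y)).hasFDerivAt.comp_hasDerivAt y h4
    exact (hasFDerivAt_snd (𝕜 := ℝ) (E := ℝ) (F := ℝ)).comp_hasDerivAt y h5
  have hi1 : Integrable fun x => (fderiv ℝ φ x (1, 0)).1 := hc1.integrable_of_hasCompactSupport hs1
  have hi2 : Integrable fun x => (fderiv ℝ φ x (0, 1)).2 := hc2.integrable_of_hasCompactSupport hs2
  have hsum : ∫ x in test a, dvg φ x =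
      (∫ x in test a, (fderiv ℝ φ x (1, 0)).1) + ∫ x in test a, (fderiv ℝ φ x (0, 1)).2 :=
    integral_add hi1.integrableOn hi2.integrableOn
  rw [hsum]
  have hA := integral_first_le ha (f := fun z => (φ z).1) hc1 hs1 hd1 (fun z => (hK _ (h3 z)).1)
  -- the second summand, after exchanging the coordinates
  have hswap : ∫ x in test a, (fderiv ℝ φ x (0, 1)).2 =
      ∫ x in test a, (fderiv ℝ φ x.swap (0, 1)).2 := by
    rw [← integral_indicator (test_measurable a), ← integral_indicator (test_measurable a),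
      Measure.volume_eq_prod, ← integral_prod_swap]
    congr 1
    funext z
    obtain ⟨x, y⟩ := z
    by_cases hz : (x, y) ∈ test a
    · rw [indicator_of_mem (show (x, y) ∈ test a from hz),
        indicator_of_mem (show Prod.swap (x, y) ∈ test a from (mem_test_swap x y).1 hz)]
    · rw [indicator_of_notMem (show (x, y) ∉ test a from hz),
        indicator_of_notMem (show Prod.swap (x, y) ∉ test a from
          fun h => hz ((mem_test_swap x y).2 h))]
  have hB := integral_first_le ha (f := fun z => (φ z.swap).2)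
    (f' := fun z => (fderiv ℝ φ z.swap (0, 1)).2) (hc2.comp continuous_swap)
    (by
      have := hs2.comp_homeomorph (Homeomorph.prodComm ℝ ℝ)
      exact this)
    (fun x y => hd2 y x) (fun z => (hK _ (h3 _)).2)
  rw [hswap]
  linarith

/-! ### The area of the test set -/

lemma integral_sqrt_mid :
    ∫ x in (Real.sin (Real.pi / 8))..(Real.cos (Real.pi / 8)), √(1 - x ^ 2) = Real.pi / 8 := by
  have hcos : Real.cos (Real.pi / 8) = Real.sin (3 * Real.pi / 8) := by
    rw [← Real.cos_pi_div_two_sub]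
    congr 1
    ring
  rw [hcos]
  have h := intervalIntegral.integral_comp_mul_deriv (a := Real.pi / 8) (b := 3 * Real.pi / 8)
    (f := Real.sin) (f' := Real.cos) (g := fun x => √(1 - x ^ 2))
    (fun x _ => Real.hasDerivAt_sin x) Real.continuous_cos.continuousOn (by fun_prop)
  rw [← h]
  have hcongr : ∫ x in (Real.pi / 8)..(3 * Real.pi / 8), ((fun x => √(1 - x ^ 2)) ∘ Real.sin) x *
      Real.cos x = ∫ x in (Real.pi / 8)..(3 * Real.pi / 8), Real.cos x ^ 2 := by
    apply intervalIntegral.integral_congr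
    intro x hx
    rw [uIcc_of_le (by linarith [Real.pi_pos])] at hx
    have hc : 0 ≤ Real.cos x := by
      apply Real.cos_nonneg_of_neg_pi_div_two_le_of_le
      · linarith [hx.1, Real.pi_pos]
      · linarith [hx.2, Real.pi_pos]
    simp only [Function.comp]
    have e : 1 - Real.sin x ^ 2 = Real.cos x ^ 2 := by
      have := Real.sin_sq_add_cos_sq x
      linarith
    rw [e, Real.sqrt_sq hc]
    ring
  rw [hcongr, integral_cos_sq]
  have h1 : Real.cos (3 * Real.pi / 8) = Real.sin (Real.pi / 8) := by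
    rw [← Real.sin_pi_div_two_sub]
    congr 1
    ring
  have h2 : Real.sin (3 * Real.pi / 8) = Real.cos (Real.pi / 8) := by
    rw [← Real.cos_pi_div_two_sub]
    congr 1
    ring
  rw [h1, h2]
  ring

lemma sin_lt_cos : Real.sin (Real.pi / 8) ≤ Real.cos (Real.pi / 8) := by
  have hcos : Real.cos (Real.pi / 8) = Real.sin (3 * Real.pi / 8) := by
    rw [← Real.cos_pi_div_two_sub]
    congr 1
    ring
  rw [hcos]
  apply Real.sin_le_sin_of_le_of_le_pi_div_two <;> linarith [Real.pi_pos]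

lemma sin_cos_prod : Real.sin (Real.pi / 8) * Real.cos (Real.pi / 8) = √2 / 4 := by
  have h := Real.sin_two_mul (Real.pi / 8)
  have e : 2 * (Real.pi / 8) = Real.pi / 4 := by ring
  rw [e, Real.sin_pi_div_four] at h
  linarith

lemma integral_wid :
    ∫ x in (0 : ℝ)..(Real.cos (Real.pi / 8)), wid (Real.cos (Real.pi / 8)) x =
      √2 / 4 + Real.pi / 8 := by
  set a := Real.cos (Real.pi / 8) with ha
  set s := Real.sin (Real.pi / 8) with hs
  have has : s ^ 2 + a ^ 2 = 1 := Real.sin_sq_add_cos_sq _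
  have hs0 : 0 ≤ s := Real.sin_nonneg_of_nonneg_of_le_pi (by positivity) (by linarith [Real.pi_pos])
  have hsa : s ≤ a := sin_lt_cos
  have ha0 : 0 ≤ a := hs0.trans hsa
  have hcw : Continuous (wid a) := by unfold wid; fun_prop
  rw [← intervalIntegral.integral_add_adjacent_intervals (b := s) (hcw.intervalIntegrable _ _)
    (hcw.intervalIntegrable _ _)]
  have h1 : ∫ x in (0 : ℝ)..s, wid a x = s * a := by
    have : ∫ x in (0 : ℝ)..s, wid a x = ∫ _ in (0 : ℝ)..s, a := by
      apply intervalIntegral.integral_congr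
      intro x hx
      rw [uIcc_of_le hs0] at hx
      unfold wid
      apply min_eq_left
      apply Real.le_sqrt_of_sq_le
      nlinarith [hx.1, hx.2]
    rw [this, intervalIntegral.integral_const]
    simp
  have h2 : ∫ x in s..a, wid a x = Real.pi / 8 := by
    rw [← integral_sqrt_mid]
    apply intervalIntegral.integral_congr
    intro x hx
    rw [uIcc_of_le hsa] at hx
    unfold wid
    apply min_eq_right
    rw [Real.sqrt_le_left ha0]
    nlinarith [hx.1, hx.2]
  rw [h1, h2, sin_cos_prod]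

lemma volume_test :
    volume (test (Real.cos (Real.pi / 8))) = ENNReal.ofReal (√2 + Real.pi / 2) := by
  set a := Real.cos (Real.pi / 8) with ha
  have ha0 : 0 ≤ a := by
    apply Real.cos_nonneg_of_neg_pi_div_two_le_of_le <;> linarith [Real.pi_pos]
  have hcw : Continuous (wid a) := by unfold wid; fun_prop
  have hreg : test a = regionBetween (fun x => -(wid a x)) (wid a) (Ioo (-a) a) := by
    ext ⟨x, y⟩
    rw [mem_test_swap, mem_test_iff]
    unfold regionBetween
    simp only [mem_ofPred_eq]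
    constructor
    · rintro ⟨h1, h2⟩
      exact ⟨abs_lt.1 h1, h2⟩
    · rintro ⟨h1, h2⟩
      exact ⟨abs_lt.2 h1, h2⟩
  rw [hreg, Measure.volume_eq_prod, volume_regionBetween_eq_integral]
  · congr 1
    rw [← integral_Ioc_eq_integral_Ioo, ← intervalIntegral.integral_of_le (by linarith)]
    have e : ∀ y, (wid a - fun x => -(wid a x)) y = 2 * wid a y := by
      intro y
      simp only [Pi.sub_apply]
      ring
    simp only [e]
    rw [intervalIntegral.integral_const_mul,
      ← intervalIntegral.integral_add_adjacent_intervals (b := 0) (hcw.intervalIntegrable _ _)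
      (hcw.intervalIntegrable _ _)]
    have hneg : ∫ x in (-a)..0, wid a x = ∫ x in (0 : ℝ)..a, wid a x := by
      have h := intervalIntegral.integral_comp_neg (a := 0) (b := a) (f := wid a)
      rw [neg_zero] at h
      rw [← h]
      apply intervalIntegral.integral_congr
      intro x _
      simp [wid]
    rw [hneg, integral_wid]
    ring
  · exact (hcw.neg.continuousOn.integrableOn_Icc).mono_set Ioo_subset_Icc_self
  · exact (hcw.continuousOn.integrableOn_Icc).mono_set Ioo_subset_Icc_self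
  · exact measurableSet_Ioo
  · intro x _
    have := wid_nonneg ha0 x
    linarith

lemma cheeger_le {K : Set (ℝ × ℝ)} (hK : ∀ x ∈ closure K, |x.1| ≤ 1 ∧ |x.2| ≤ 1) :
    cheeger K disk ≤ ENNReal.ofReal (8 * Real.cos (Real.pi / 8) / (√2 + Real.pi / 2)) := by
  have ha0 : 0 ≤ Real.cos (Real.pi / 8) := by
    apply Real.cos_nonneg_of_neg_pi_div_two_le_of_le <;> linarith [Real.pi_pos]
  have hpos : 0 < √2 + Real.pi / 2 := by positivity
  have hv : 0 < volume (test (Real.cos (Real.pi / 8))) := by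
    rw [volume_test]
    exact ENNReal.ofReal_pos.2 hpos
  unfold cheeger
  refine (iInf₂_le (test (Real.cos (Real.pi / 8)))
    ⟨test_measurable _, test_subset _, hv⟩).trans ?_
  rw [volume_test, ENNReal.ofReal_div_of_pos hpos]
  exact ENNReal.div_le_div_right (per_test_le ha0 hK) _

/-! ### The polygons -/

lemma circle_identity (d a b : ℝ) (hab : a + b = 1) (x y : ℝ × ℝ) :
    ((a • x + b • y).1 + d) ^ 2 + (a • x + b • y).2 ^ 2 =
      a * ((x.1 + d) ^ 2 + x.2 ^ 2) + b * ((y.1 + d) ^ 2 + y.2 ^ 2) -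
        a * b * ((x.1 - y.1) ^ 2 + (x.2 - y.2) ^ 2) := by
  obtain rfl : b = 1 - a := by linarith
  simp only [Prod.fst_add, Prod.snd_add, Prod.smul_fst, Prod.smul_snd, smul_eq_mul]
  ring

lemma convex_circle (d R : ℝ) : Convex ℝ {x : ℝ × ℝ | (x.1 + d) ^ 2 + x.2 ^ 2 ≤ R ^ 2} := by
  intro x hx y hy a b ha hb hab
  have hx' : (x.1 + d) ^ 2 + x.2 ^ 2 ≤ R ^ 2 := hx
  have hy' : (y.1 + d) ^ 2 + y.2 ^ 2 ≤ R ^ 2 := hy
  change ((a • x + b • y).1 + d) ^ 2 + (a • x + b • y).2 ^ 2 ≤ R ^ 2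
  rw [circle_identity d a b hab]
  have h1 := mul_le_mul_of_nonneg_left hx' ha
  have h2 := mul_le_mul_of_nonneg_left hy' hb
  have h3 : 0 ≤ a * b * ((x.1 - y.1) ^ 2 + (x.2 - y.2) ^ 2) := by positivity
  have h4 : a * R ^ 2 + b * R ^ 2 = R ^ 2 := by rw [← add_mul, hab, one_mul]
  linarith

lemma extreme_of_circle {C : Set (ℝ × ℝ)} (d R : ℝ)
    (hC : ∀ x ∈ C, (x.1 + d) ^ 2 + x.2 ^ 2 ≤ R ^ 2) {v : ℝ × ℝ} (hv : v ∈ C)
    (h : (v.1 + d) ^ 2 + v.2 ^ 2 = R ^ 2) : v ∈ C.extremePoints ℝ := by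
  rw [mem_extremePoints]
  refine ⟨hv, fun x hx y hy hxy => ?_⟩
  obtain ⟨a, b, ha, hb, hab, rfl⟩ := hxy
  rw [circle_identity d a b hab] at h
  have h1 := mul_le_mul_of_nonneg_left (hC x hx) ha.le
  have h2 := mul_le_mul_of_nonneg_left (hC y hy) hb.le
  have h4 : a * R ^ 2 + b * R ^ 2 = R ^ 2 := by rw [← add_mul, hab, one_mul]
  have h5 : a * b * ((x.1 - y.1) ^ 2 + (x.2 - y.2) ^ 2) ≤ 0 := by linarith
  have h6 : (x.1 - y.1) ^ 2 + (x.2 - y.2) ^ 2 ≤ 0 := by
    have hab0 : 0 < a * b := mul_pos ha hb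
    by_contra hcon
    push Not at hcon
    have := mul_pos hab0 hcon
    linarith
  have h7 : x.1 = y.1 := by nlinarith [sq_nonneg (x.1 - y.1), sq_nonneg (x.2 - y.2)]
  have h8 : x.2 = y.2 := by nlinarith [sq_nonneg (x.1 - y.1), sq_nonneg (x.2 - y.2)]
  have h9 : x = y := Prod.ext h7 h8
  subst h9
  rw [← add_smul, hab, one_smul]
  exact ⟨rfl, rfl⟩

/-- the size of the inner square -/
def c0 : ℝ := 999 / 1000

/-- the distance of the centres of the large circles from the origin -/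
def d0 : ℝ := 498001 / 1000

/-- the radius of the large circles -/
def R0 : ℝ := 499001 / 1000

/-- the point of height `y` on the right circle -/
def pt (y : ℝ) : ℝ × ℝ := (√(R0 ^ 2 - y ^ 2) - d0, y)

/-- the heights of the vertices -/
def ht (m i : ℕ) : ℝ := c0 * (2 * i / (m - 1) - 1)

/-- the vertices -/
def verts (m : ℕ) : Finset (ℝ × ℝ) :=
  (Finset.range m).image (fun i => pt (ht m i)) ∪ (Finset.range m).image (fun i => -pt (ht m i))

/-- the polygon -/
def poly (m : ℕ) : Set (ℝ × ℝ) := interior (convexHull ℝ (verts m : Set (ℝ × ℝ)))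

lemma ht_abs {m i : ℕ} (hm : 2 ≤ m) (hi : i < m) : |ht m i| ≤ c0 := by
  have hm1 : (0 : ℝ) < m - 1 := by
    have : (2 : ℝ) ≤ m := by exact_mod_cast hm
    linarith
  have hi1 : (i : ℝ) ≤ m - 1 := by
    have : ((i + 1 : ℕ) : ℝ) ≤ m := by exact_mod_cast hi
    push_cast at this
    linarith
  have h0 : 0 ≤ 2 * (i : ℝ) / (m - 1) := by positivity
  have h1 : 2 * (i : ℝ) / (m - 1) ≤ 2 := by
    rw [div_le_iff₀ hm1]; linarith
  unfold ht
  rw [abs_mul, abs_of_pos (by norm_num [c0] : (0 : ℝ) < c0)]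
  have : |2 * (i : ℝ) / (m - 1) - 1| ≤ 1 := abs_le.2 ⟨by linarith, by linarith⟩
  have hc : (0 : ℝ) ≤ c0 := by norm_num [c0]
  nlinarith

lemma pt_fst {y : ℝ} (hy : |y| ≤ c0) : c0 ≤ (pt y).1 ∧ (pt y).1 ≤ 1 := by
  have hy2 : y ^ 2 ≤ c0 ^ 2 := by
    rw [← sq_abs]
    exact pow_le_pow_left₀ (abs_nonneg _) hy 2
  unfold pt
  simp only
  constructor
  · have : c0 + d0 ≤ √(R0 ^ 2 - y ^ 2) := by
      apply Real.le_sqrt_of_sq_le
      unfold c0 at hy2
      unfold c0 d0 R0
      norm_num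
      norm_num at hy2
      linarith
    linarith
  · have : √(R0 ^ 2 - y ^ 2) ≤ 1 + d0 := by
      rw [Real.sqrt_le_left (by norm_num [d0])]
      unfold d0 R0
      nlinarith [sq_nonneg y]
    linarith

lemma pt_circle {y : ℝ} (hy : |y| ≤ c0) : ((pt y).1 + d0) ^ 2 + (pt y).2 ^ 2 = R0 ^ 2 := by
  have hy2 : y ^ 2 ≤ c0 ^ 2 := by
    rw [← sq_abs]
    exact pow_le_pow_left₀ (abs_nonneg _) hy 2
  unfold pt
  simp only
  rw [sub_add_cancel, Real.sq_sqrt]
  · ring
  · unfold c0 at hy2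
    unfold R0
    norm_num at hy2 ⊢
    linarith

lemma pt_corner {y : ℝ} (hy : y ^ 2 = c0 ^ 2) : pt y = (c0, y) := by
  unfold pt
  have : √(R0 ^ 2 - y ^ 2) = c0 + d0 := by
    rw [hy, Real.sqrt_eq_iff_mul_self_eq (by norm_num [R0, c0]) (by norm_num [c0, d0])]
    norm_num [R0, c0, d0]
  rw [this]
  simp

lemma ht_zero (m : ℕ) : ht m 0 = -c0 := by simp [ht]

lemma ht_last {m : ℕ} (hm : 2 ≤ m) : ht m (m - 1) = c0 := by
  have hm1 : (0 : ℝ) < m - 1 := by
    have : (2 : ℝ) ≤ m := by exact_mod_cast hm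
    linarith
  unfold ht
  rw [Nat.cast_sub (by omega), Nat.cast_one, mul_div_assoc, div_self hm1.ne']
  ring

lemma mem_verts {m : ℕ} {v : ℝ × ℝ} :
    v ∈ verts m ↔ ∃ i < m, v = pt (ht m i) ∨ v = -pt (ht m i) := by
  unfold verts
  simp only [Finset.mem_union, Finset.mem_image, Finset.mem_range]
  constructor
  · rintro (⟨i, hi, rfl⟩ | ⟨i, hi, rfl⟩)
    · exact ⟨i, hi, Or.inl rfl⟩
    · exact ⟨i, hi, Or.inr rfl⟩
  · rintro ⟨i, hi, rfl | rfl⟩
    · exact Or.inl ⟨i, hi, rfl⟩
    · exact Or.inr ⟨i, hi, rfl⟩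

lemma card_verts {m : ℕ} (hm : 2 ≤ m) : (verts m).card = 2 * m := by
  have hm1 : (0 : ℝ) < m - 1 := by
    have : (2 : ℝ) ≤ m := by exact_mod_cast hm
    linarith
  have hinj : Function.Injective fun i : ℕ => pt (ht m i) := by
    intro i j hij
    have h1 : ht m i = ht m j := congrArg Prod.snd hij
    unfold ht at h1
    have hc : c0 ≠ 0 := by norm_num [c0]
    have h2 := mul_left_cancel₀ hc h1
    have h3 : 2 * (i : ℝ) / (m - 1) = 2 * j / (m - 1) := by linarith
    rw [div_left_inj' hm1.ne'] at h3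
    have : (i : ℝ) = j := by linarith
    exact_mod_cast this
  have hinj2 : Function.Injective fun i : ℕ => -pt (ht m i) := neg_injective.comp hinj
  unfold verts
  rw [Finset.card_union_of_disjoint, Finset.card_image_of_injective _ hinj,
    Finset.card_image_of_injective _ hinj2, Finset.card_range]
  · ring
  · rw [Finset.disjoint_left]
    intro v hv hv'
    simp only [Finset.mem_image, Finset.mem_range] at hv hv'
    obtain ⟨i, hi, rfl⟩ := hv
    obtain ⟨j, hj, h⟩ := hv'
    have h1 := (pt_fst (ht_abs hm hi)).1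
    have h2 := (pt_fst (ht_abs hm hj)).1
    have h3 : -(pt (ht m j)).1 = (pt (ht m i)).1 := congrArg Prod.fst h
    have hc : (0 : ℝ) < c0 := by norm_num [c0]
    linarith

lemma verts_bound {m : ℕ} (hm : 2 ≤ m) {v : ℝ × ℝ} (hv : v ∈ verts m) : |v.1| ≤ 1 ∧ |v.2| ≤ 1 := by
  have hc : c0 ≤ 1 := by norm_num [c0]
  have hc0 : 0 ≤ c0 := by norm_num [c0]
  obtain ⟨i, hi, rfl | rfl⟩ := mem_verts.1 hv
  · have h := pt_fst (ht_abs hm hi)
    refine ⟨abs_le.2 ⟨by linarith [h.1], h.2⟩, (ht_abs hm hi).trans hc⟩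
  · have h := pt_fst (ht_abs hm hi)
    refine ⟨?_, ?_⟩
    · rw [Prod.fst_neg, abs_neg]
      exact abs_le.2 ⟨by linarith [h.1], h.2⟩
    · rw [Prod.snd_neg, abs_neg]
      exact (ht_abs hm hi).trans hc

lemma hull_bound {m : ℕ} (hm : 2 ≤ m) {x : ℝ × ℝ}
    (hx : x ∈ convexHull ℝ (verts m : Set (ℝ × ℝ))) : |x.1| ≤ 1 ∧ |x.2| ≤ 1 := by
  have h1 : convexHull ℝ (verts m : Set (ℝ × ℝ)) ⊆ Icc (-1 : ℝ) 1 ×ˢ Icc (-1 : ℝ) 1 := by
    apply convexHull_min
    · intro v hv
      have := verts_bound hm (Finset.mem_coe.1 hv)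
      exact ⟨abs_le.1 this.1, abs_le.1 this.2⟩
    · exact (convex_Icc _ _).prod (convex_Icc _ _)
  have h2 := h1 hx
  exact ⟨abs_le.2 h2.1, abs_le.2 h2.2⟩

lemma box_subset {m : ℕ} (hm : 2 ≤ m) :
    Icc (-c0) c0 ×ˢ Icc (-c0) c0 ⊆ convexHull ℝ (verts m : Set (ℝ × ℝ)) := by
  have hc0 : -c0 ≤ c0 := by norm_num [c0]
  have h1 : ({-c0, c0} : Set ℝ) ×ˢ ({-c0, c0} : Set ℝ) ⊆ (verts m : Set (ℝ × ℝ)) := by
    have e1 : pt (ht m 0) = (c0, -c0) := by rw [ht_zero, pt_corner (by ring)]
    have e2 : pt (ht m (m - 1)) = (c0, c0) := by rw [ht_last hm, pt_corner rfl]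
    rintro ⟨x, y⟩ ⟨hx, hy⟩
    simp only [mem_insert_iff, mem_singleton_iff] at hx hy
    rw [Finset.mem_coe, mem_verts]
    rcases hx with rfl | rfl <;> rcases hy with rfl | rfl
    · exact ⟨m - 1, by omega, Or.inr (by rw [e2]; rfl)⟩
    · exact ⟨0, by omega, Or.inr (by rw [e1]; simp)⟩
    · exact ⟨0, by omega, Or.inl e1.symm⟩
    · exact ⟨m - 1, by omega, Or.inl e2.symm⟩
  have h2 := convexHull_mono (𝕜 := ℝ) h1
  rw [convexHull_prod, convexHull_pair, segment_eq_Icc hc0] at h2
  exact h2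

lemma obox_subset {m : ℕ} (hm : 2 ≤ m) : Ioo (-c0) c0 ×ˢ Ioo (-c0) c0 ⊆ poly m := by
  unfold poly
  apply interior_maximal _ (isOpen_Ioo.prod isOpen_Ioo)
  exact (Set.prod_mono Ioo_subset_Icc_self Ioo_subset_Icc_self).trans (box_subset hm)

lemma closure_poly {m : ℕ} (hm : 2 ≤ m) :
    closure (poly m) = convexHull ℝ (verts m : Set (ℝ × ℝ)) := by
  have hne : (interior (convexHull ℝ (verts m : Set (ℝ × ℝ)))).Nonempty := by
    refine ⟨0, obox_subset hm ⟨?_, ?_⟩⟩ <;> norm_num [c0]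
  unfold poly
  rw [(convex_convexHull ℝ _).closure_interior_eq_closure_of_nonempty_interior hne]
  exact ((verts m).finite_toSet.isClosed_convexHull ℝ).closure_eq

lemma poly_isPolygon {m : ℕ} (hm : 2 ≤ m) : IsPolygon (2 * m) (poly m) := by
  have hcl := closure_poly hm
  refine ⟨⟨?_, isOpen_interior, ?_, (convex_convexHull ℝ _).interior, ?_⟩, verts m, card_verts hm,
    hcl, ?_⟩
  · exact ⟨0, obox_subset hm (by constructor <;> norm_num [c0])⟩
  · have := ((verts m).finite_toSet.isCompact_convexHull ℝ).isBounded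
    exact this.subset interior_subset
  · intro x hx
    have hneg : -(convexHull ℝ (verts m : Set (ℝ × ℝ))) = convexHull ℝ (verts m : Set (ℝ × ℝ)) := by
      rw [← convexHull_neg]
      congr 1
      ext v
      rw [Set.mem_neg, Finset.mem_coe, Finset.mem_coe, mem_verts, mem_verts]
      constructor
      · rintro ⟨i, hi, h | h⟩
        · exact ⟨i, hi, Or.inr (by rw [← h, neg_neg])⟩
        · exact ⟨i, hi, Or.inl (neg_injective h)⟩
      · rintro ⟨i, hi, h | h⟩
        · exact ⟨i, hi, Or.inr (by rw [h])⟩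
        · exact ⟨i, hi, Or.inl (by rw [h, neg_neg])⟩
    have : -interior (convexHull ℝ (verts m : Set (ℝ × ℝ))) =
        interior (convexHull ℝ (verts m : Set (ℝ × ℝ))) := by
      conv_rhs => rw [← hneg]
      exact (Homeomorph.neg (ℝ × ℝ)).preimage_interior _
    unfold poly at hx ⊢
    rw [← this, Set.mem_neg, neg_neg]
    exact hx
  · rw [hcl]
    apply Subset.antisymm extremePoints_convexHull_subset
    intro v hv
    have hvh : v ∈ convexHull ℝ (verts m : Set (ℝ × ℝ)) := subset_convexHull ℝ _ hv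
    have hd0 : (0 : ℝ) ≤ d0 := by norm_num [d0]
    have hc0 : (0 : ℝ) ≤ c0 := by norm_num [c0]
    obtain ⟨i, hi, rfl | rfl⟩ := mem_verts.1 (Finset.mem_coe.1 hv)
    · apply extreme_of_circle d0 R0 _ hvh (pt_circle (ht_abs hm hi))
      intro x hx
      have hsub : convexHull ℝ (verts m : Set (ℝ × ℝ)) ⊆
          {x : ℝ × ℝ | (x.1 + d0) ^ 2 + x.2 ^ 2 ≤ R0 ^ 2} := by
        apply convexHull_min _ (convex_circle d0 R0)
        intro w hw
        obtain ⟨j, hj, rfl | rfl⟩ := mem_verts.1 (Finset.mem_coe.1 hw)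
        · exact (pt_circle (ht_abs hm hj)).le
        · have h1 := pt_circle (ht_abs hm hj)
          have h2 := (pt_fst (ht_abs hm hj)).1
          change (-(pt (ht m j)).1 + d0) ^ 2 + (-(pt (ht m j)).2) ^ 2 ≤ R0 ^ 2
          nlinarith
      exact hsub hx
    · apply extreme_of_circle (-d0) R0 _ hvh
      · have := pt_circle (ht_abs hm hi)
        change (-(pt (ht m i)).1 + -d0) ^ 2 + (-(pt (ht m i)).2) ^ 2 = R0 ^ 2
        rw [← this]; ring
      · intro x hx
        have hsub : convexHull ℝ (verts m : Set (ℝ × ℝ)) ⊆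
            {x : ℝ × ℝ | (x.1 + -d0) ^ 2 + x.2 ^ 2 ≤ R0 ^ 2} := by
          apply convexHull_min _ (convex_circle (-d0) R0)
          intro w hw
          obtain ⟨j, hj, rfl | rfl⟩ := mem_verts.1 (Finset.mem_coe.1 hw)
          · have h1 := pt_circle (ht_abs hm hj)
            have h2 := (pt_fst (ht_abs hm hj)).1
            change ((pt (ht m j)).1 + -d0) ^ 2 + ((pt (ht m j)).2) ^ 2 ≤ R0 ^ 2
            nlinarith
          · have h1 := pt_circle (ht_abs hm hj)
            change (-(pt (ht m j)).1 + -d0) ^ 2 + (-(pt (ht m j)).2) ^ 2 ≤ R0 ^ 2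
            nlinarith
        exact hsub hx

/-! ### The polar of the polygon -/

lemma polar_subset {K : Set (ℝ × ℝ)} (hb : Bornology.IsBounded K) {c : ℝ} (hc : 0 < c)
    (hbox : Ioo (-c) c ×ˢ Ioo (-c) c ⊆ K) : polar K ⊆ {x | |x.1| + |x.2| < 1 / c} := by
  intro x hx
  have hS : polarNorm K x < 1 := hx
  obtain ⟨M, hM⟩ := isBounded_iff_forall_norm_le.1 hb
  have hbdd : BddAbove ((fun y => dot x y) '' K) := by
    refine ⟨|x.1| * M + |x.2| * M, ?_⟩
    rintro _ ⟨y, hy, rfl⟩
    have h1 : |y.1| ≤ M := (norm_fst_le y).trans (hM y hy)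
    have h2 : |y.2| ≤ M := (norm_snd_le y).trans (hM y hy)
    have h3 : x.1 * y.1 ≤ |x.1| * M := (le_abs_self _).trans (by
      rw [abs_mul]; exact mul_le_mul_of_nonneg_left h1 (abs_nonneg _))
    have h4 : x.2 * y.2 ≤ |x.2| * M := (le_abs_self _).trans (by
      rw [abs_mul]; exact mul_le_mul_of_nonneg_left h2 (abs_nonneg _))
    unfold dot
    linarith
  have hsgn : ∀ u : ℝ, ∃ s : ℝ, |s| = 1 ∧ u * s = |u| := by
    intro u
    rcases le_total 0 u with h | h
    · exact ⟨1, by simp, by rw [abs_of_nonneg h, mul_one]⟩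
    · exact ⟨-1, by simp, by rw [abs_of_nonpos h]; ring⟩
  obtain ⟨s, hs1, hs2⟩ := hsgn x.1
  obtain ⟨t, ht1, ht2⟩ := hsgn x.2
  set A := c * (|x.1| + |x.2|) with hA
  have key : ∀ r : ℝ, 0 < r → r < 1 → r * A ≤ polarNorm K x := by
    intro r hr0 hr1
    have hmem : ((r * c * s, r * c * t) : ℝ × ℝ) ∈ K := by
      apply hbox
      have hrc : r * c < c := by nlinarith
      constructor
      · rw [mem_Ioo, ← abs_lt]
        simp only
        rw [abs_mul, hs1, mul_one, abs_of_pos (mul_pos hr0 hc)]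
        exact hrc
      · rw [mem_Ioo, ← abs_lt]
        simp only
        rw [abs_mul, ht1, mul_one, abs_of_pos (mul_pos hr0 hc)]
        exact hrc
    have := le_csSup hbdd ⟨_, hmem, rfl⟩
    have e : dot x (r * c * s, r * c * t) = r * A := by
      unfold dot
      simp only
      rw [hA, ← hs2, ← ht2]
      ring
    rw [← e]
    exact this
  have hA1 : A < 1 := by
    by_contra hcon
    push Not at hcon
    have hS0 : (1 / 2) * A ≤ polarNorm K x := key _ (by norm_num) (by norm_num)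
    have hr := key ((polarNorm K x / A + 1) / 2) (by
      have : 0 ≤ polarNorm K x / A := div_nonneg (by linarith) (by linarith)
      linarith) (by
      have : polarNorm K x / A < 1 := by rw [div_lt_one (by linarith)]; linarith
      linarith)
    have e : (polarNorm K x / A + 1) / 2 * A = (polarNorm K x + A) / 2 := by
      field_simp [(by linarith : A ≠ 0)]
    rw [e] at hr
    linarith
  change |x.1| + |x.2| < 1 / c
  rw [lt_div_iff₀ hc]
  linarith

lemma volume_diamond {ρ : ℝ} (hρ : 0 ≤ ρ) :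
    volume {x : ℝ × ℝ | |x.1| + |x.2| < ρ} = ENNReal.ofReal (2 * ρ ^ 2) := by
  have hreg : {x : ℝ × ℝ | |x.1| + |x.2| < ρ} =
      regionBetween (fun x => -(ρ - |x|)) (fun x => ρ - |x|) (Ioo (-ρ) ρ) := by
    ext ⟨x, y⟩
    unfold regionBetween
    simp only [mem_ofPred_eq]
    constructor
    · intro h
      refine ⟨abs_lt.1 (by linarith [abs_nonneg y]), abs_lt.1 (by linarith)⟩
    · rintro ⟨_, h2⟩
      have := abs_lt.2 h2
      linarith
  have hcw : Continuous fun x : ℝ => ρ - |x| := by fun_prop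
  rw [hreg, Measure.volume_eq_prod, volume_regionBetween_eq_integral]
  · congr 1
    rw [← integral_Ioc_eq_integral_Ioo, ← intervalIntegral.integral_of_le (by linarith)]
    have e : ∀ y, ((fun x => ρ - |x|) - fun x => -(ρ - |x|)) y = 2 * (ρ - |y|) := by
      intro y
      simp only [Pi.sub_apply]
      ring
    simp only [e]
    rw [intervalIntegral.integral_const_mul,
      ← intervalIntegral.integral_add_adjacent_intervals (b := 0) (hcw.intervalIntegrable _ _)
      (hcw.intervalIntegrable _ _)]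
    have hneg : ∫ x in (-ρ)..0, (ρ - |x|) = ∫ x in (0 : ℝ)..ρ, (ρ - |x|) := by
      have h := intervalIntegral.integral_comp_neg (a := 0) (b := ρ) (f := fun x : ℝ => ρ - |x|)
      rw [neg_zero] at h
      rw [← h]
      apply intervalIntegral.integral_congr
      intro x _
      simp
    have hp : ∫ x in (0 : ℝ)..ρ, (ρ - |x|) = ρ ^ 2 / 2 := by
      have : ∫ x in (0 : ℝ)..ρ, (ρ - |x|) = ∫ x in (0 : ℝ)..ρ, (ρ - x) := by
        apply intervalIntegral.integral_congr
        intro x hx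
        rw [uIcc_of_le hρ] at hx
        simp only
        rw [abs_of_nonneg hx.1]
      rw [this, intervalIntegral.integral_sub (by simp) (by simp), intervalIntegral.integral_const,
        integral_id]
      simp
      ring
    rw [hneg, hp]
    ring
  · exact (hcw.neg.continuousOn.integrableOn_Icc).mono_set Ioo_subset_Icc_self
  · exact (hcw.continuousOn.integrableOn_Icc).mono_set Ioo_subset_Icc_self
  · exact measurableSet_Ioo
  · intro x hx
    have := abs_lt.2 hx
    change -(ρ - |x|) ≤ ρ - |x|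
    linarith

lemma upper {m : ℕ} (hm : 2 ≤ m) : J (poly m) ≤
    ENNReal.ofReal (8 * Real.cos (Real.pi / 8) / (√2 + Real.pi / 2) * √(2 * (1 / c0) ^ 2)) := by
  have hc : (0 : ℝ) < c0 := by norm_num [c0]
  have ha0 : 0 ≤ Real.cos (Real.pi / 8) := by
    apply Real.cos_nonneg_of_neg_pi_div_two_le_of_le <;> linarith [Real.pi_pos]
  have h1 : cheeger (poly m) disk ≤
      ENNReal.ofReal (8 * Real.cos (Real.pi / 8) / (√2 + Real.pi / 2)) := by
    apply cheeger_le
    intro x hx
    rw [closure_poly hm] at hx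
    exact hull_bound hm hx
  have h2 : volume (polar (poly m)) ≤ ENNReal.ofReal (2 * (1 / c0) ^ 2) := by
    rw [← volume_diamond (by positivity)]
    exact measure_mono (polar_subset (poly_isPolygon hm).1.2.2.1 hc (obox_subset hm))
  have h3 := ENNReal.rpow_le_rpow h2 (show (0 : ℝ) ≤ 1 / 2 by norm_num)
  rw [ENNReal.ofReal_rpow_of_nonneg (by positivity) (by norm_num), ← Real.sqrt_eq_rpow] at h3
  rw [ENNReal.ofReal_mul (by positivity)]
  unfold J
  exact mul_le_mul' h1 h3

/-! ### The comparison -/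

lemma numeric {n : ℕ} (hn : 24 ≤ n) :
    8 * Real.cos (Real.pi / 8) / (√2 + Real.pi / 2) * √(2 * (1 / c0) ^ 2) <
      2 * √(Real.pi * Real.cos (Real.pi / n) ^ 2) := by
  have hpi1 := Real.pi_gt_d6
  have hpi2 := Real.pi_lt_d6
  have hn0 : (0 : ℝ) < n := by
    have : 0 < n := by omega
    exact_mod_cast this
  have ha0 : 0 ≤ Real.cos (Real.pi / 8) := by
    apply Real.cos_nonneg_of_neg_pi_div_two_le_of_le <;> linarith [Real.pi_pos]
  have hc8 : Real.cos (Real.pi / 8) ^ 2 = (2 + √2) / 4 := by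
    rw [Real.cos_pi_div_eight, div_pow, Real.sq_sqrt (by positivity)]
    norm_num
  have hs1 : (1.41421 : ℝ) < √2 := by
    apply Real.lt_sqrt_of_sq_lt
    norm_num
  have hs2 : √2 < (1.41422 : ℝ) := by
    rw [Real.sqrt_lt' (by norm_num)]
    norm_num
  have hcn : (0.9914 : ℝ) ≤ Real.cos (Real.pi / n) := by
    have h1 : Real.cos (Real.pi / 24) ≤ Real.cos (Real.pi / n) := by
      apply Real.cos_le_cos_of_nonneg_of_le_pi (by positivity) (by linarith)
      apply div_le_div_of_nonneg_left Real.pi_pos.le (by norm_num)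
      exact_mod_cast hn
    have h2 := Real.one_sub_sq_div_two_le_cos (x := Real.pi / 24)
    nlinarith
  have hw : 0 < √2 + Real.pi / 2 := by positivity
  apply lt_of_pow_lt_pow_left₀ 2 (by positivity)
  rw [mul_pow, mul_pow, div_pow, mul_pow, Real.sq_sqrt (by positivity), Real.sq_sqrt (by positivity),
    hc8]
  have h1 : (0.9828 : ℝ) ≤ Real.cos (Real.pi / n) ^ 2 := by nlinarith
  have h2 : (12.35 : ℝ) < 2 ^ 2 * (Real.pi * Real.cos (Real.pi / n) ^ 2) := by nlinarith
  refine lt_trans ?_ h2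
  have hw2 : (8.91 : ℝ) < (√2 + Real.pi / 2) ^ 2 := by nlinarith
  have h3 : 8 ^ 2 * ((2 + √2) / 4) / (√2 + Real.pi / 2) ^ 2 < 6.134 := by
    rw [div_lt_iff₀ (by positivity)]
    nlinarith
  have h4 : 2 * (1 / c0) ^ 2 < 2.0041 := by norm_num [c0]
  have h5 : 0 < 2 * (1 / c0) ^ 2 := by norm_num [c0]
  have h6 : 0 < 8 ^ 2 * ((2 + √2) / 4) / (√2 + Real.pi / 2) ^ 2 := by positivity
  nlinarith

/-- For every even `n ≥ 24` some centrally symmetric convex polygon `P` with exactly `n` sides has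
`𝒥_B[P] < 𝒥_B[P*_n]`, where `P*_n` is the regular `n`-gon circumscribed about the disk. -/
theorem result (n : ℕ) (hn : Even n) (h24 : 24 ≤ n) :
    ∃ P : Set (ℝ × ℝ), IsPolygon n P ∧ J P < J (regularPolygon n) := by
  obtain ⟨m, hm⟩ := hn
  have hm2 : 2 ≤ m := by omega
  have hnm : n = 2 * m := by omega
  refine ⟨poly m, hnm ▸ poly_isPolygon hm2, ?_⟩
  refine (upper hm2).trans_lt (lt_of_lt_of_le ?_ (lower (n := n) (by omega)))
  rw [ENNReal.ofReal_lt_ofReal_iff_of_nonneg]
  · exact numeric h24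
  · have ha0 : 0 ≤ Real.cos (Real.pi / 8) := by
      apply Real.cos_nonneg_of_neg_pi_div_two_le_of_le <;> linarith [Real.pi_pos]
    positivity

end

end Pool.Agent.Results.MP_4eea03_an.RegularNotOptimal
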